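import Pool.Agent.H4.EdgeMeans

/-!
# The orders at `s = 1` of all `L`-functions of a tempered representation of `GSp(2n)`

Let `π` be an automorphic representation of `GSp(2n)` over `ℚ`, unramified and tempered at the primes
outside the finite set `S`.  The Satake class `A_p ∈ GSpin(2n+1, ℂ)`, `p ∉ S`, is given by a point
`x p = (x₀; x₁, …, xₙ)` of the compact torus, and a finite-dimensional representation `ρ` by the
multiplicities `m` of its weights `μ = (μ₀; μ₁, …, μₙ)`; the weight `μ` has the value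
`x₀^μ₀ ∏ x_i^μ_i`, and the spin representation has the weights `(1; ε)`, `ε ∈ {0, 1}ⁿ`.  The Weyl group
`W`, of order `2ⁿ n!`, permutes `μ₁, …, μₙ` and contains the maps `μ_i ↦ μ₀ - μ_i`.  (Automorphy is
not used.)  Let `Ξ` be any abelian group of unitary twists, that is of functions `p ↦ ω(p)` with
values in the unit circle; for example `Ξ = 0`, or all `ω(p) = χ(p) p^{-it}`, so that
`L_S(s, π, ρ ⊗ ω)` at `s = 1` is `L_S(s, π, ρ ⊗ χ)` at `1 + it`.

**Theorem.**  Suppose that all the `L_S(s, π, ρ ⊗ ω)` are meromorphic at the point `s = 1` (a small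
part of the question Q1).  Then there are finitely many subgroups `Λ_j` of `X × Ξ` (`X` is the weight
lattice), at most `2ⁿ n!` of them, and finitely many integers `c_{ji}` and elements `a_{ji}` of `X × Ξ`
such that for ALL `ρ` and ALL `ω`
`- |W| ord_{s = 1} L_S(s, π, ρ ⊗ ω) = ∑ c_{ji} #{μ : (μ, ω) ∈ a_{ji} + Λ_j}`,
where the weights `μ` of `ρ` are counted with multiplicities.  Moreover each of the functions
`φ_j = ∑_i c_{ji} 1_{a_{ji} + Λ_j}` is positive definite, with `φ_j(0) ≥ 1`.

So infinitely many orders, which could a priori be arbitrary integers, are described by a finite set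
of integers and cosets, as it would be the case if the Satake classes were equidistributed in a
compact subgroup.  The proof: the orders are the mean values of characters of `X × Ξ`, so they
define an integer-valued positive definite function, and the theorem is a structure theorem for all
such functions on abelian groups (`Pool.Agent.H4.CosetThm`), proved with weak limits in a Hilbert
space.
-/

open Filter Topology

namespace Pool.Agent.Results.MP_eea520_nt.OrdersInCosets

open Pool.Agent.H4.Coset Pool.Agent.H4.Edge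

/-- the primes outside `S` -/
abbrev Pr (S : Finset ℕ) := {p : Nat.Primes // (p : ℕ) ∉ S}

/-- the weights `(μ₀; μ₁, …, μₙ)` of the maximal torus of `GSpin(2n+1, ℂ)` -/
abbrev Wt (n : ℕ) := ℤ × (Fin n → ℤ)

/-- the Weyl group: a permutation of the coordinates together with a set of sign changes -/
abbrev Weyl (n : ℕ) := Equiv.Perm (Fin n) × (Fin n → Bool)

/-- the action of the Weyl group on the weights; a sign change is `μ_i ↦ μ₀ - μ_i` -/
def wact {n : ℕ} (w : Weyl n) (μ : Wt n) : Wt n :=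
  (μ.1, fun i => if w.2 i then μ.1 - μ.2 (w.1 i) else μ.2 (w.1 i))

/-- the multiplicities of the weights of a representation are invariant under the Weyl group -/
def IsRep {n : ℕ} (m : Wt n →₀ ℕ) : Prop := ∀ w μ, m (wact w μ) = m μ

/-- the compact torus -/
abbrev Torus (n : ℕ) := Circle × (Fin n → Circle)

/-- the value of the weight `μ` at the point `y` of the compact torus -/
noncomputable def chr {n : ℕ} (y : Torus n) (μ : Wt n) : Circle := y.1 ^ μ.1 * ∏ i, y.2 i ^ μ.2 i

/-- the Euler product `∏_{p ∉ S} det (1 - ω(p) ρ(A_p) p^{-s})⁻¹` -/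
noncomputable def LF {S : Finset ℕ} {n : ℕ} (x : Pr S → Torus n) (m : Wt n →₀ ℕ) (ω : Pr S → ℂ)
    (s : ℂ) : ℂ :=
  ∏' p : Pr S, m.prod fun μ k => ((1 - chr (x p) μ * ω p * ((p.1 : ℕ) : ℂ) ^ (-s))⁻¹) ^ k

/-- `F` is a meromorphic continuation of `L` to the point `s₀` -/
def ContinuesTo (L : ℂ → ℂ) (s₀ : ℂ) (F : ℂ → ℂ) : Prop :=
  MeromorphicAt F s₀ ∧ ∀ s : ℂ, 1 < s.re → F s = L s

/-! ### the Weyl group -/

section weyl
variable {n : ℕ}

def wmul (w' w : Weyl n) : Weyl n := (w.1 * w'.1, fun i => xor (w'.2 i) (w.2 (w'.1 i)))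

lemma wact_wmul (w' w : Weyl n) (μ : Wt n) : wact (wmul w' w) μ = wact w' (wact w μ) := by
  unfold wact wmul
  ext i
  · rfl
  · simp only [Equiv.Perm.coe_mul, Function.comp]
    by_cases h1 : w'.2 i = true <;> by_cases h2 : w.2 (w'.1 i) = true <;> simp [h1, h2]

lemma wmul_injective (w' : Weyl n) : Function.Injective (wmul w') := by
  intro a b h
  unfold wmul at h
  rw [Prod.mk.injEq] at h
  obtain ⟨h1, h2⟩ := h
  have h3 : a.1 = b.1 := mul_right_cancel h1
  refine Prod.ext h3 ?_
  funext j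
  have := congrFun h2 (w'.1.symm j)
  simpa using this

lemma wmul_bijective (w' : Weyl n) : Function.Bijective (wmul w') :=
  Finite.injective_iff_bijective.mp (wmul_injective w')

lemma wact_add (w : Weyl n) (μ ν : Wt n) : wact w (μ + ν) = wact w μ + wact w ν := by
  unfold wact
  ext i
  · rfl
  · simp only [Prod.fst_add, Prod.snd_add, Pi.add_apply]
    split_ifs <;> ring

lemma wact_one (μ : Wt n) : wact (1, fun _ => false) μ = μ := by
  unfold wact
  ext i <;> simp

lemma wact_bijective (w : Weyl n) : Function.Bijective (wact w) := by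
  obtain ⟨w', hw'⟩ := (wmul_bijective w).2 (1, fun _ => false)
  have h1 : ∀ μ, wact w (wact w' μ) = μ := fun μ => by rw [← wact_wmul, hw', wact_one]
  obtain ⟨w'', hw''⟩ := (wmul_bijective w').2 (1, fun _ => false)
  have h2 : ∀ μ, wact w' (wact w'' μ) = μ := fun μ => by rw [← wact_wmul, hw'', wact_one]
  have h3 : ∀ μ, wact w'' μ = wact w μ := fun μ => by
    rw [← h1 (wact w'' μ), h2]
  refine ⟨fun a b hab => ?_, fun μ => ⟨_, h1 μ⟩⟩
  rw [← h2 a, ← h2 b, h3, h3, hab]

noncomputable def wequiv (w : Weyl n) : Wt n ≃ Wt n := Equiv.ofBijective _ (wact_bijective w)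

/-- the sum over the Weyl group -/
noncomputable def orbit (μ : Wt n) : Wt n →₀ ℕ := ∑ w : Weyl n, Finsupp.single (wact w μ) 1

lemma orbit_isRep (μ : Wt n) : IsRep (orbit μ) := by
  classical
  intro w' ν
  unfold orbit
  rw [Finsupp.finsetSum_apply, Finsupp.finsetSum_apply]
  rw [← Fintype.sum_bijective (wmul w') (wmul_bijective w')
    (fun w => (Finsupp.single (wact (wmul w' w) μ) 1 : Wt n →₀ ℕ) (wact w' ν))
    (fun w => (Finsupp.single (wact w μ) 1 : Wt n →₀ ℕ) (wact w' ν)) (fun w => rfl)]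
  refine Finset.sum_congr rfl fun w _ => ?_
  rw [wact_wmul, Finsupp.single_apply, Finsupp.single_apply]
  simp only [(wact_bijective w').1.eq_iff]

lemma orbit_sum {R : Type*} [AddCommMonoid R] (μ : Wt n) (f : Wt n → R) :
    ((orbit μ).sum fun ν c => c • f ν) = ∑ w : Weyl n, f (wact w μ) := by
  classical
  unfold orbit
  rw [← Finsupp.sum_finsetSum_index]
  · simp
  · intro a; simp
  · intro a b c; rw [add_smul]

/-- averaging over the Weyl group -/
lemma rep_sum {R : Type*} [CommRing R] {m : Wt n →₀ ℕ} (hm : IsRep m) (f : Wt n → R) :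
    (2 ^ n * n.factorial : ℕ) * (m.sum fun ν c => (c : R) * f ν) =
      m.sum fun μ c => (c : R) * ∑ w : Weyl n, f (wact w μ) := by
  classical
  have h1 : ∀ w : Weyl n, (m.sum fun ν c => (c : R) * f ν) = m.sum fun μ c => (c : R) * f (wact w μ) := by
    intro w
    unfold Finsupp.sum
    symm
    refine Finset.sum_bijective (wact w) (wact_bijective w) (fun μ => ?_) (fun μ _ => ?_)
    · rw [Finsupp.mem_support_iff, Finsupp.mem_support_iff, hm]
    · rw [hm]
  have h2 : (m.sum fun μ c => (c : R) * ∑ w : Weyl n, f (wact w μ)) =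
      ∑ w : Weyl n, m.sum fun μ c => (c : R) * f (wact w μ) := by
    unfold Finsupp.sum
    rw [Finset.sum_comm]
    refine Finset.sum_congr rfl fun μ _ => ?_
    beta_reduce
    rw [Finset.mul_sum]
  rw [h2, ← Finset.sum_congr rfl fun w _ => h1 w, Finset.sum_const, nsmul_eq_mul]
  congr 2
  simp [Finset.card_univ, Fintype.card_perm]
  ring

end weyl

/-! ### means and orders -/

section means
variable {S : Finset ℕ} {n : ℕ}

/-- the index set of the weights with multiplicities -/
abbrev Ix (m : Wt n →₀ ℕ) := Σ μ : {μ : Wt n // μ ∈ m.support}, Fin (m μ)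

lemma LF_eq (x : Pr S → Torus n) (m : Wt n →₀ ℕ) (ω : Pr S → ℂ) (s : ℂ) :
    LF x m ω s = Pool.Agent.H406.EDG.LL (S := S) (ι := Ix m)
      (fun p i => (chr (x p) i.1.1 : ℂ) * ω p) (1 : DirichletCharacter ℂ 1) s := by
  unfold LF Pool.Agent.H406.EDG.LL
  refine tprod_congr fun p => ?_
  rw [Fintype.prod_sigma, Finsupp.prod, ← Finset.prod_coe_sort m.support]
  refine Finset.prod_congr rfl fun μ _ => ?_
  simp only [Finset.prod_const, Finset.card_univ, Fintype.card_fin,
    MulChar.one_apply (isUnit_of_subsingleton _), mul_one]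

lemma sum_Ix {R : Type*} [CommSemiring R] (m : Wt n →₀ ℕ) (f : Wt n → R) :
    ∑ i : Ix m, f i.1.1 = m.sum fun μ c => (c : R) * f μ := by
  rw [Fintype.sum_sigma, Finsupp.sum, ← Finset.sum_coe_sort m.support]
  refine Finset.sum_congr rfl fun μ _ => ?_
  simp only [Finset.sum_const, Finset.card_univ, Fintype.card_fin, nsmul_eq_mul]

lemma mean_of_continues (x : Pr S → Torus n) (m : Wt n →₀ ℕ) (ω : Pr S → Circle) {F : ℂ → ℂ}
    (hF : ContinuesTo (LF x m fun p => ω p) 1 F) : ∃ k : ℤ, meromorphicOrderAt F 1 = k ∧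
      HasMean (fun p : Pr S => m.sum fun μ c => (c : ℝ) * ((chr (x p) μ : ℂ) * ω p).re) (-k) := by
  have hpt : Pool.Agent.H406.EDG.pt 1 0 = 1 := by simp [Pool.Agent.H406.EDG.pt]
  obtain ⟨k, hk, hm⟩ := hasMean_of_order (S := S) (ι := Ix m) (N := 1)
    (a := fun p i => (chr (x p) i.1.1 : ℂ) * ω p)
    (fun p i => by rw [norm_mul, Circle.norm_coe, Circle.norm_coe, mul_one])
    (χ := (1 : DirichletCharacter ℂ 1)) (t := 0) (F := F) (by rw [hpt]; exact hF.1)
    (fun s hs => by rw [hF.2 s hs, LF_eq])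
  rw [hpt] at hk
  refine ⟨k, hk, hm.congr fun p => ?_⟩
  have e1 : Pool.Agent.H406.EDG.VV (1 : DirichletCharacter ℂ 1) 0 p = 1 := by
    unfold Pool.Agent.H406.EDG.VV
    rw [MulChar.one_apply (isUnit_of_subsingleton _)]
    simp
  rw [e1, mul_one, Complex.re_sum, sum_Ix m fun μ => ((chr (x p) μ : ℂ) * ω p).re]

end means


section partA
variable {S : Finset ℕ} {n : ℕ}

lemma chr_add (y : Torus n) (μ ν : Wt n) : chr y (μ + ν) = chr y μ * chr y ν := by
  unfold chr
  simp only [Prod.fst_add, Prod.snd_add, Pi.add_apply, zpow_add, Finset.prod_mul_distrib]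
  rw [mul_mul_mul_comm]

lemma chr_zero (y : Torus n) : chr y 0 = 1 := by
  unfold chr; simp

lemma wact_zero (w : Weyl n) : wact w (0 : Wt n) = 0 := by
  unfold wact
  ext i <;> simp

/-- the characters of `Wt n × Ξ` given by the primes and the elements of the Weyl group -/
noncomputable def ch (x : Pr S → Torus n) {Ξ : Type} [AddCommGroup Ξ] (ev : Pr S → AddChar Ξ Circle)
    (p : Pr S) (w : Weyl n) : AddChar (Wt n × Ξ) Circle where
  toFun γ := chr (x p) (wact w γ.1) * ev p γ.2
  map_zero_eq_one' := by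
    show chr (x p) (wact w 0) * ev p 0 = 1
    rw [wact_zero, chr_zero, AddChar.map_zero_eq_one, mul_one]
  map_add_eq_mul' a b := by
    show chr (x p) (wact w (a.1 + b.1)) * ev p (a.2 + b.2) = _
    rw [wact_add, chr_add, AddChar.map_add_eq_mul, mul_mul_mul_comm]

lemma card_weyl : Fintype.card (Weyl n) = 2 ^ n * n.factorial := by
  simp [Fintype.card_perm]
  ring

lemma mean_orbit (x : Pr S → Torus n) {Ξ : Type} [AddCommGroup Ξ] (ev : Pr S → AddChar Ξ Circle)
    (μ : Wt n) (ω : Ξ) {l : ℝ}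
    (h : HasMean (fun p : Pr S => (orbit μ).sum fun ν c =>
      (c : ℝ) * ((chr (x p) ν : ℂ) * (ev p ω : Circle)).re) l) :
    HasMean (fun p => ∑ w, ((ch x ev p w (μ, ω) : Circle) : ℂ).re) l := by
  refine h.congr fun p => ?_
  have := orbit_sum μ fun ν => ((chr (x p) ν : ℂ) * (ev p ω : Circle)).re
  simp only [nsmul_eq_mul] at this
  rw [this]
  refine Finset.sum_congr rfl fun w _ => ?_
  show ((chr (x p) (wact w μ) * ev p ω : Circle) : ℂ).re = _
  rw [Circle.coe_mul]

/-- the orders are determined by the means -/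
lemma order_formula (x : Pr S → Torus n) {Ξ : Type} [AddCommGroup Ξ] (ev : Pr S → AddChar Ξ Circle)
    (ω : Ξ) (ψ : Wt n → ℤ) {m : Wt n →₀ ℕ} (hm : IsRep m)
    (h : ∀ μ ∈ m.support, HasMean (fun p => ∑ w, ((ch x ev p w (μ, ω) : Circle) : ℂ).re) (ψ μ))
    {F : ℂ → ℂ} (hF : ContinuesTo (LF x m fun p => ev p ω) 1 F) :
    ∃ k : ℤ, meromorphicOrderAt F 1 = k ∧
      ((2 ^ n * n.factorial : ℕ) : ℤ) * k = -(m.sum fun μ c => (c : ℤ) * ψ μ) := by
  obtain ⟨k, hk, h1⟩ := mean_of_continues x m (fun p => ev p ω) hF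
  refine ⟨k, hk, ?_⟩
  have h2 := h1.const_mul ((2 ^ n * n.factorial : ℕ) : ℝ)
  have h3 : HasMean (fun p : Pr S => ∑ μ ∈ m.support, (m μ : ℝ) *
      ∑ w, ((ch x ev p w (μ, ω) : Circle) : ℂ).re) (∑ μ ∈ m.support, (m μ : ℝ) * ψ μ) :=
    HasMean.sum _ fun μ hμ => (h μ hμ).const_mul _
  have h4 := h3.unique (h2.congr fun p => by
    rw [rep_sum hm fun ν => ((chr (x p) ν : ℂ) * (ev p ω : Circle)).re]
    unfold Finsupp.sum
    refine Finset.sum_congr rfl fun μ _ => ?_
    congr 1)
  unfold Finsupp.sum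
  have h5 : ((((2 ^ n * n.factorial : ℕ) : ℤ) * k : ℤ) : ℝ) =
      ((-(∑ μ ∈ m.support, (m μ : ℤ) * ψ μ) : ℤ) : ℝ) := by
    push_cast
    push_cast at h4
    linarith
  exact_mod_cast h5

/-- **The orders at `s = 1` of all `L`-functions of a tempered representation of `GSp(2n)`.** -/
theorem result (n : ℕ) (S : Finset ℕ) (x : Pr S → Torus n) (Ξ : Type) [AddCommGroup Ξ]
    (ev : Pr S → AddChar Ξ Circle)
    (h : ∀ m, IsRep m → ∀ ω, ∃ F, ContinuesTo (LF x m fun p => ev p ω) 1 F) :
    ∃ Ps : List (Piece (Wt n × Ξ)), Ps.length ≤ 2 ^ n * n.factorial ∧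
      (∀ P ∈ Ps, PosDef P.val ∧ 1 ≤ P.val 0) ∧
      ∀ m, IsRep m → ∀ ω F, ContinuesTo (LF x m fun p => ev p ω) 1 F →
        ∃ k : ℤ, meromorphicOrderAt F 1 = k ∧ ((2 ^ n * n.factorial : ℕ) : ℤ) * k =
          -(m.sum fun μ c => (c : ℤ) * (Ps.map fun P => P.val (μ, ω)).sum) := by
  classical
  choose F hF using fun γ : Wt n × Ξ => h (orbit γ.1) (orbit_isRep γ.1) γ.2
  choose k hk hmean using fun γ : Wt n × Ξ => mean_of_continues x (orbit γ.1) (fun p => ev p γ.2) (hF γ)
  set ψ : Wt n × Ξ → ℤ := fun γ => -k γ with hψ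
  have hψm : ∀ γ, HasMean (fun p => ∑ w, ((ch x ev p w γ : Circle) : ℂ).re) (ψ γ) := by
    intro γ
    have := mean_orbit x ev γ.1 γ.2 (hmean γ)
    simpa [hψ] using this
  obtain ⟨h1, h2, h3⟩ := posDef_of_mean (ch x ev) ψ hψm
  obtain ⟨Ps, hPs, hsum⟩ := pieces_of_posDef ψ h2 h1
  rw [card_weyl] at h3
  refine ⟨Ps, ?_, hPs, ?_⟩
  · have := length_le hPs
    rw [← hsum, h3] at this
    exact_mod_cast this
  · intro m hm ω F hF
    have := order_formula x ev ω (fun μ => ψ (μ, ω)) hm (fun μ _ => hψm (μ, ω)) hF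
    simpa only [hsum] using this

end partA

end Pool.Agent.Results.MP_eea520_nt.OrdersInCosets
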