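import Pool.Agent.H4.SE.Adj

/-!
# Every Farrell-Jones group embeds in a simple, divisible and acyclic Farrell-Jones group

`C` is any class of groups with the following closure properties, all of which are known for the class
of the groups that satisfy the Farrell-Jones conjecture (with coefficients and finite wreath products).
`ClosedE C` (`Pool.Agent.Y110.FJ.Stm`): the class contains `ℤ` and is closed under groups that embed,
finite products, free products, overgroups of finite index and colimits of directed systems, and it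
satisfies the extension criterion (if `G` maps onto a group `Q` in `C` and the preimages of the virtually
cyclic subgroups of `Q` are in `C` then `G` is in `C`).  `HasSolvable C`: solvable groups are in `C`
(Wegner).  `TreeClosed C` (`Pool.Agent.Q152.TC.Cent`): the class is closed under acylindrical cocompact
actions of finitely generated groups on trees (Knopf).

**Theorem.**  Every group `G` in `C` embeds in a group `S` in `C` with the following properties:
`S` is simple; for any two elements `a ≠ 1` and `b ≠ 1` of `S`, the element `b` is a product of two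
conjugates of `a` and one conjugate of `a⁻¹` (in particular the simplicity of `S` is uniform); `S` is
divisible; `S` is mitotic, hence acyclic (Baumslag, Dyer and Heller).  If `G` is torsion-free, then so
is `S`, and if `G` is countable, then so is `S`.

So the class of the Farrell-Jones groups consists of the subgroups of the simple, divisible, acyclic
Farrell-Jones groups, and the same for the torsion-free ones.  The usual constructions of
simple groups (HNN extensions which make all elements of the same order conjugate) create unbalanced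
Baumslag-Solitar subgroups, and it is not known whether they preserve the conjecture.

Proof.  For elements `a ≠ 1` and `b ≠ 1` of a group `H` in `C` we adjoin a free letter `y` and a stable
letter `s` with `s (a · y a y⁻¹) s⁻¹ = b · y a y⁻¹`.  Both `a · y a y⁻¹` and `b · y a y⁻¹` have the
translation length two in the tree of the free product `H * ⟨y⟩`.  Since the two translation lengths
are equal, the stable length of an element of an edge stabilizer of the HNN extension does not depend
on the vertex, all elements of edge stabilizers are balanced, and the HNN extension is in `C`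
by the theorem on trees with virtually cyclic edge stabilizers (`CyclicSplittings`).  Adjoin such
letters for all pairs, alternate with the mitosis and with the adjunction of roots, and iterate.
-/

set_option autoImplicit false

namespace Pool.Agent.H4.Withdrawn.SimpleEmbedding

open Pool.Agent.H4.SE Pool.Agent.X176.FJ Pool.Agent.Y110.FJ Pool.Agent.Q152.TC Pool.Agent.Q91.FJ

/-- Let `C` be a class of groups with the closure properties of the class of the Farrell-Jones
groups, and `G` in `C`.  Then `G` embeds in a group `S` in `C` which is simple, divisible and mitotic,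
and in which each `b ≠ 1` is a product of two conjugates of `a` and one conjugate of `a⁻¹`, for each
`a ≠ 1`; and `S` is torsion-free (countable) if `G` is. -/
theorem result (C : ∀ (G : Type) [Group G], Prop) (hC : ClosedE C) (hS : HasSolvable C)
    (hA : TreeClosed C) (G : Type) [Group G] (hG : C G) :
    ∃ (S : Type) (_ : Group S) (f : G →* S), Function.Injective f ∧ C S ∧ IsSimpleGroup S ∧
      (∀ a b : S, a ≠ 1 → b ≠ 1 → ∃ x y z : S,
        b = (x * a * x⁻¹) * (y * a * y⁻¹) * (z * a⁻¹ * z⁻¹)) ∧
      IsDiv S ∧ IsMitotic S ∧ (IsTF G → IsTF S) ∧ (Countable G → Countable S) := by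
  let Pr : ∀ (H : Type) [Group H], Prop := fun H _ =>
    C H ∧ (IsTF G → IsTF H) ∧ (Countable G → Countable H)
  let SS : ∀ (H : Type) [Group H], Set (H × ℕ) := fun H _ => {s | s.1 ≠ 1}
  let EE : ∀ (H : Type) [Group H], Set (H × H) := fun H _ => {s | s.1 ≠ 1 ∧ s.2 ≠ 1}
  let R : PG Pr → Type := fun X => RE (MG X.G) (SS (MG X.G))
  let _ : ∀ X : PG Pr, Group (R X) := fun X =>
    inferInstanceAs (Group (RE (MG X.G) (SS (MG X.G))))
  have hR : ∀ X : PG Pr, C (R X) := fun X => (all_E hC (c_MG hC X.pr.1) _).1
  have hP : ∀ X : PG Pr, C (PE (R X) (EE (R X))) ∧ Function.Injective (xP (EE (R X))) ∧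
      (IsTF (R X) → IsTF (PE (R X) (EE (R X)))) := fun X =>
    all_P hC.base hS hA (hR X) (EE (R X)) fun s hs => hs
  let nx : PG Pr → PG Pr := fun X => ⟨PE (R X) (EE (R X)), inferInstance, (hP X).1,
    fun h => (hP X).2.2 ((all_E hC (c_MG hC X.pr.1) _).2.2 (tf_MG (X.pr.2.1 h)) (fun _ h => h)),
    fun h => by
      have h1 := X.pr.2.2 h
      have h2 : Countable (MG X.G) := ct_MG
      have h3 : Countable (Gm (MG X.G)) := by
        have h4 : Function.Surjective
            (Monoid.Coprod.mk (M := MG X.G) (N := FreeGroup (MG X.G × ℕ))) := Monoid.Coprod.mk_surjective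
        exact h4.countable
      have h5 : Countable (R X) :=
        (QuotientGroup.mk'_surjective (Subgroup.normalClosure (rho (MG X.G) '' SS (MG X.G)))).countable
      have h6 : Countable (Gp (R X)) := by
        have h4 : Function.Surjective
            (Monoid.Coprod.mk (M := R X) (N := FreeGroup (Lt (R X)))) := Monoid.Coprod.mk_surjective
        exact h4.countable
      exact (QuotientGroup.mk'_surjective (Subgroup.normalClosure _)).countable⟩
  let ιR : ∀ X : PG Pr, X.G →* R X := fun X => (xE (SS (MG X.G))).comp (iG X.G)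
  have hιR : ∀ X : PG Pr, Function.Injective (ιR X) := fun X =>
    (all_E hC (c_MG hC X.pr.1) (SS (MG X.G))).2.1.comp iG_inj
  let st : ∀ X : PG Pr, X.G →* (nx X).G := fun X => (xP (EE (R X))).comp (ιR X)
  have hst : ∀ X : PG Pr, Function.Injective (st X) := fun X => (hP X).2.1.comp (hιR X)
  let X : PG Pr := ⟨G, inferInstance, hG, id, id⟩
  have hstep : ∀ (n : ℕ) (x : (sq nx X n).G),
      toLim nx st X (n + 1) (stp nx st X n x) = toLim nx st X n x := by
    intro n x
    have h1 := toLim_mp nx st X n (n + 1) (Nat.le_succ n) x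
    rw [mp_succ nx st X n n le_rfl, mp_self] at h1
    exact h1
  -- the map of the group with the roots at the stage `n` to the limit
  let T : ∀ n : ℕ, R (sq nx X n) →* LimG nx st X := fun n =>
    (toLim nx st X (n + 1)).comp (xP (EE (R (sq nx X n))))
  have hTι : ∀ n x, T n (ιR (sq nx X n) x) = toLim nx st X n x := fun n x => hstep n x
  have hTinj : ∀ n, Function.Injective (T n) := fun n =>
    (toLim_inj nx st hst X (n + 1)).comp (hP (sq nx X n)).2.1
  -- the three conjugates
  have hconj : ∀ a b : LimG nx st X, a ≠ 1 → b ≠ 1 → ∃ x y z : LimG nx st X,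
      b = (x * a * x⁻¹) * (y * a * y⁻¹) * (z * a⁻¹ * z⁻¹) := by
    intro a b ha hb
    obtain ⟨n, hn⟩ := fin_stage nx st X {a, b} (Set.toFinite _)
    obtain ⟨a', rfl⟩ := hn (Set.mem_insert _ _)
    obtain ⟨b', rfl⟩ := hn (Set.mem_insert_of_mem _ rfl)
    have ha' : ιR (sq nx X n) a' ≠ 1 := by
      intro h
      apply ha
      rw [← hTι, h, map_one]
    have hb' : ιR (sq nx X n) b' ≠ 1 := by
      intro h
      apply hb
      rw [← hTι, h, map_one]
    have hmem : (ιR (sq nx X n) a', ιR (sq nx X n) b') ∈ EE (R (sq nx X n)) := ⟨ha', hb'⟩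
    have hrel := rel_P hmem
    let s0 : PE (R (sq nx X n)) (EE (R (sq nx X n))) :=
      lP (EE (R (sq nx X n))) ((ιR (sq nx X n) a', ιR (sq nx X n) b'), true)
    let y0 : PE (R (sq nx X n)) (EE (R (sq nx X n))) :=
      lP (EE (R (sq nx X n))) ((ιR (sq nx X n) a', ιR (sq nx X n) b'), false)
    let τ : PE (R (sq nx X n)) (EE (R (sq nx X n))) →* LimG nx st X := toLim nx st X (n + 1)
    have h1 : τ s0 * (toLim nx st X n a' * (τ y0 * toLim nx st X n a' * (τ y0)⁻¹)) * (τ s0)⁻¹ =
        toLim nx st X n b' * (τ y0 * toLim nx st X n a' * (τ y0)⁻¹) := by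
      have h2 := congrArg τ hrel
      simp only [map_mul, map_inv] at h2
      have e1 : τ (xP (EE (R (sq nx X n))) (ιR (sq nx X n) a')) = toLim nx st X n a' := hTι n a'
      have e2 : τ (xP (EE (R (sq nx X n))) (ιR (sq nx X n) b')) = toLim nx st X n b' := hTι n b'
      rw [e1, e2] at h2
      exact h2
    refine ⟨τ s0, τ s0 * τ y0, τ y0, ?_⟩
    have h3 : toLim nx st X n b' = τ s0 * (toLim nx st X n a' *
        (τ y0 * toLim nx st X n a' * (τ y0)⁻¹)) * (τ s0)⁻¹ *
        (τ y0 * toLim nx st X n a' * (τ y0)⁻¹)⁻¹ := by
      rw [h1]; group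
    rw [h3]; group
  -- the limit is not trivial
  have hnt : Nontrivial (LimG nx st X) := by
    have h1 : lP (EE (R X)) ((1, 1), false) ≠ 1 := lP_ne_one _ (fun h => h.1 rfl)
    refine ⟨toLim nx st X 1 (lP (EE (R X)) ((1, 1), false) : PE (R X) (EE (R X))), 1, fun h => ?_⟩
    exact h1 (toLim_inj nx st hst X 1 (h.trans (map_one _).symm))
  refine ⟨LimG nx st X, inferInstance, toLim nx st X 0, toLim_inj nx st hst X 0,
    c_lim nx st hC.base (fun _ _ h => h.1) hst X, ?_, hconj, ?_, ?_, ?_, ?_⟩
  · refine { exists_pair_ne := hnt.exists_pair_ne, eq_bot_or_eq_top_of_normal := fun N hN => ?_ }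
    by_cases hbot : N = ⊥
    · exact Or.inl hbot
    · right
      obtain ⟨⟨a, haN⟩, ha0⟩ := Subgroup.ne_bot_iff_exists_ne_one.1 hbot
      have ha : a ≠ 1 := fun h => ha0 (Subtype.ext h)
      rw [eq_top_iff]
      intro b _
      by_cases hb : b = 1
      · rw [hb]; exact N.one_mem
      · obtain ⟨x, y, z, rfl⟩ := hconj a b ha hb
        exact N.mul_mem (N.mul_mem (hN.conj_mem _ haN x) (hN.conj_mem _ haN y))
          (hN.conj_mem _ (N.inv_mem haN) z)
  · intro y n hn
    obtain ⟨m, x, rfl⟩ := toLim_surj nx st X y
    by_cases hx : x = 1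
    · exact ⟨1, by rw [hx, one_pow, map_one]⟩
    · have h1 : (iG (sq nx X m).G x, n - 1) ∈ SS (MG (sq nx X m).G) := by
        intro h
        exact hx (iG_inj (h.trans (map_one _).symm))
      have h2 := rel_E h1
      have h3 : n - 1 + 1 = n := by omega
      have h4 : (yE (SS (MG (sq nx X m).G)) (iG (sq nx X m).G x, n - 1)) ^ n = ιR (sq nx X m) x := by
        have h5 : (yE (SS (MG (sq nx X m).G)) (iG (sq nx X m).G x, n - 1)) ^ (n - 1 + 1) =
            ιR (sq nx X m) x := h2
        rwa [h3] at h5
      refine ⟨T m (yE (SS (MG (sq nx X m).G)) (iG (sq nx X m).G x, n - 1)), ?_⟩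
      rw [← hTι m x, ← h4]
      exact (map_pow (T m) _ n).symm
  · intro H hH
    obtain ⟨n, hn⟩ := fg_stage nx st X H hH
    let s0 : MG (sq nx X n).G := ⟨sM, sM_mem⟩
    let d0 : MG (sq nx X n).G := ⟨dM, dM_mem⟩
    let i0 : (sq nx X n).G →* MG (sq nx X n).G := iG _
    have hms : ∀ x y, i0 x * (s0 * i0 y * s0⁻¹) = s0 * i0 y * s0⁻¹ * i0 x := fun x y =>
      Subtype.ext (mitosis_s y x)
    have hmd : ∀ x, d0 * i0 x * d0⁻¹ = i0 x * (s0 * i0 x * s0⁻¹) := fun x =>
      Subtype.ext (mitosis_d x)
    let T' : MG (sq nx X n).G →* LimG nx st X := (T n).comp (xE (SS (MG (sq nx X n).G)))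
    have hT : ∀ x, toLim nx st X n x = T' (i0 x) := fun x => (hTι n x).symm
    refine ⟨T' s0, T' d0, ?_, ?_⟩
    · intro h hh h' hh'
      obtain ⟨x, rfl⟩ := hn hh
      obtain ⟨y, rfl⟩ := hn hh'
      rw [hT, hT, ← map_inv, ← map_mul, ← map_mul, ← map_mul, ← map_mul, hms]
    · intro h hh
      obtain ⟨x, rfl⟩ := hn hh
      rw [hT, ← map_inv, ← map_inv, ← map_mul, ← map_mul, ← map_mul, ← map_mul, ← map_mul, hmd]
  · intro htf y n hn h
    obtain ⟨m, x, rfl⟩ := toLim_surj nx st X y
    rw [← map_pow] at h
    have h1 : x ^ n = 1 := toLim_inj nx st hst X m (h.trans (map_one _).symm)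
    rw [(sq nx X m).pr.2.1 htf x n hn h1, map_one]
  · intro hct
    have h1 : ∀ n, Countable (sq nx X n).G := fun n => (sq nx X n).pr.2.2 hct
    have h2 : Function.Surjective (fun p : Σ n, (sq nx X n).G => toLim nx st X p.1 p.2) := by
      intro y
      obtain ⟨n, x, h⟩ := toLim_surj nx st X y
      exact ⟨⟨n, x⟩, h⟩
    exact h2.countable

end Pool.Agent.H4.Withdrawn.SimpleEmbedding
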